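import Pool.Agent.Helper13_Eng2.Stmts
import Pool.Agent.Helper8_Eng.Lrk

/-!
# Squad ENG, part 2: module VRK
-/

set_option autoImplicit false

namespace Pool.Agent.Eng.H33

open FiniteField Finset Pool.Agent.Eng.H8

theorem sum_zmod {M : Type} [AddCommMonoid M] (k : ℕ) (f : ℕ → M) :
    ∑ i ∈ range (k + 1), f i = ∑ i : ZMod (k + 1), f i.val :=
  Finset.sum_range f

/-- the operator `b` with its coefficients -/
theorem op_coord {K L : Type} [Field K] [Finite K] [Field L] [Algebra K L]
    [FiniteDimensional K L] (m : ℕ) (lam : L) (hn : Module.finrank K L = 2 * m + 1)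
    (b : L →ₗ[K] L)
    (hb : ∀ x, b x = ∑ j, bmat m (cj K L (2 * m + 1) lam) 0 j * x ^ (Nat.card K ^ j.val))
    (x : L) (i : ZMod (2 * m + 1)) :
    (b x) ^ (Nat.card K ^ i.val) =
      ∑ l, bmat m (cj K L (2 * m + 1) lam) i l * x ^ (Nat.card K ^ l.val) := by
  have h1 : (b x) ^ (Nat.card K ^ i.val) =
      ∑ k, bmat m (cj K L (2 * m + 1) lam) i (i + k) * x ^ (Nat.card K ^ (i + k).val) := by
    obtain ⟨s, hs⟩ := exists_frob K L i.val
    rw [← hs, hb x, map_sum]
    apply Finset.sum_congr rfl
    intro k _
    rw [map_mul, hs, hs, pow_val_add (2 * m + 1) hn]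
    congr 1
    exact bmat_frob (2 * m + 1) m hn lam i k
  rw [h1]
  exact Fintype.sum_equiv (Equiv.addLeft i) _ _ (fun k => rfl)

/-- the operator `b` of LRK together with its formula -/
theorem lrk_formula (hlbm : LbmStmt) (K L : Type) [Field K] [Finite K] [Field L] [Algebra K L]
    [FiniteDimensional K L] (m : ℕ) (lam : L) (hm : 1 ≤ m)
    (hn : Module.finrank K L = 2 * m + 1) (hadj : Algebra.adjoin K {lam} = ⊤)
    (hnorm : Algebra.norm K lam = 1) :
    ∃ b : L →ₗ[K] L,
      (∀ x, b x = ∑ j, bmat m (cj K L (2 * m + 1) lam) 0 j * x ^ (Nat.card K ^ j.val)) ∧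
      (∀ x, b (b x) = lam * b (lam * x)) ∧ (∀ x, b x = 0 → x = 0) ∧
      ∀ (μ : L) (c : K), (∀ x, b (μ * x) = c • (μ * b x)) → ∃ a : K, μ = algebraMap K L a := by
  obtain ⟨hinj, hprod, hne, hell⟩ := lra K L m lam hm hn hadj hnorm
  have hlam0 : lam ≠ 0 := by
    rintro rfl
    rw [Algebra.norm_zero] at hnorm
    exact zero_ne_one hnorm
  set c := cj K L (2 * m + 1) lam with hc
  have hB := hlbm (ZMod (2 * m + 1)) L m c (ZMod.card _) hm hinj hprod hne hell
  obtain ⟨b, hb⟩ := exists_op (F := K) (2 * m + 1) (fun j : ZMod (2 * m + 1) => bmat m c 0 j)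
  have hc0 : c 0 = lam := by
    rw [hc]
    unfold cj
    simp
  have hβne : ∀ j : ZMod (2 * m + 1), j ≠ 0 → bmat m c 0 j ≠ 0 := by
    intro j hj
    unfold bmat
    rw [if_neg (Ne.symm hj), sub_zero]
    exact div_ne_zero (hell j) (hne 0 j)
  have hbb : ∀ x, b (b x) = lam * b (lam * x) := by
    intro x
    rw [hb (b x)]
    simp_rw [op_coord m lam hn b hb x, Finset.mul_sum]
    rw [Finset.sum_comm, hb (lam * x), Finset.mul_sum]
    apply Finset.sum_congr rfl
    intro l _
    have h3 := congrFun (congrFun hB 0) l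
    rw [Matrix.mul_apply, Matrix.mul_diagonal, Matrix.diagonal_mul] at h3
    have h4 : (lam * x) ^ (Nat.card K ^ l.val) = c l * x ^ (Nat.card K ^ l.val) := by
      rw [mul_pow]
      rfl
    rw [h4]
    calc ∑ j, bmat m c 0 j * (bmat m c j l * x ^ (Nat.card K ^ l.val))
        = (∑ j, bmat m c 0 j * bmat m c j l) * x ^ (Nat.card K ^ l.val) := by
          rw [Finset.sum_mul]
          apply Finset.sum_congr rfl
          intro j _
          ring
      _ = lam * (bmat m c 0 l * (c l * x ^ (Nat.card K ^ l.val))) := by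
          rw [h3, hc0]
          ring
  have h10 : (1 : ZMod (2 * m + 1)) ≠ 0 := by
    have : Fact (1 < 2 * m + 1) := ⟨by omega⟩
    exact one_ne_zero
  have hval1 : (1 : ZMod (2 * m + 1)).val = 1 := by
    have : Fact (1 < 2 * m + 1) := ⟨by omega⟩
    exact ZMod.val_one _
  have hval2 : (2 : ZMod (2 * m + 1)).val = 2 := by
    have : ((2 : ℕ) : ZMod (2 * m + 1)).val = 2 := ZMod.val_natCast_of_lt (by omega)
    simpa using this
  have h20 : (2 : ZMod (2 * m + 1)) ≠ 0 := by
    intro h
    rw [h] at hval2
    simp at hval2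
  refine ⟨b, hb, hbb, ?_, ?_⟩
  · intro x hx
    by_contra hx0
    have hst : ∀ z, b z = 0 → b (lam * z) = 0 := by
      intro z hz
      have h1 := hbb z
      rw [hz, map_zero] at h1
      exact (mul_eq_zero.1 h1.symm).resolve_left hlam0
    have hall : ∀ μ : L, ∀ z, b z = 0 → b (μ * z) = 0 := by
      intro μ
      have hμ : μ ∈ Algebra.adjoin K {lam} := by
        rw [hadj]
        trivial
      induction hμ using Algebra.adjoin_induction with
      | mem y hy =>
        rw [Set.mem_singleton_iff] at hy
        rw [hy]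
        exact hst
      | algebraMap r =>
        intro z hz
        rw [← Algebra.smul_def, map_smul, hz, smul_zero]
      | add y y' _ _ h1 h2 =>
        intro z hz
        rw [add_mul, map_add, h1 z hz, h2 z hz, add_zero]
      | mul y y' _ _ h1 h2 =>
        intro z hz
        rw [mul_assoc]
        exact h1 _ (h2 z hz)
    have hb0 : ∀ z, b z = 0 := by
      intro z
      have := hall (z / x) x hx
      rwa [div_mul_cancel₀ z hx0] at this
    have := indep (F := K) (2 * m + 1) lam hinj (fun j => bmat m c 0 j)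
      (fun z => by rw [← hb z]; exact hb0 z) 1
    exact hβne 1 h10 this
  · intro μ r hμ
    have h1 := indep (F := K) (2 * m + 1) lam hinj
      (fun j => bmat m c 0 j * (μ ^ (Nat.card K ^ j.val) - algebraMap K L r * μ)) (fun z => by
        have h2 := hμ z
        rw [hb, hb, Algebra.smul_def, Finset.mul_sum, Finset.mul_sum] at h2
        rw [← sub_eq_zero, ← Finset.sum_sub_distrib] at h2
        rw [← h2]
        apply Finset.sum_congr rfl
        intro j _
        rw [mul_pow]
        ring)
    have h2 : μ ^ Nat.card K = algebraMap K L r * μ := by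
      have := (mul_eq_zero.1 (h1 1)).resolve_left (hβne 1 h10)
      rw [hval1, pow_one] at this
      linear_combination this
    have h3 : μ ^ (Nat.card K ^ 2) = algebraMap K L r * μ := by
      have := (mul_eq_zero.1 (h1 2)).resolve_left (hβne 2 h20)
      rw [hval2] at this
      linear_combination this
    by_cases hμ0 : μ = 0
    · exact ⟨0, by simp [hμ0]⟩
    have hFq : ∀ a : K, a ^ Nat.card K = a := by
      intro a
      have := Fintype.ofFinite K
      rw [Nat.card_eq_fintype_card]
      exact pow_card a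
    have h4 : algebraMap K L r * (algebraMap K L r * μ) = algebraMap K L r * μ := by
      calc algebraMap K L r * (algebraMap K L r * μ)
          = (algebraMap K L r) ^ Nat.card K * μ ^ Nat.card K := by rw [h2, ← map_pow, hFq]
        _ = (μ ^ Nat.card K) ^ Nat.card K := by rw [← mul_pow, h2]
        _ = μ ^ (Nat.card K ^ 2) := by rw [← pow_mul, pow_two]
        _ = algebraMap K L r * μ := h3
    have hr : algebraMap K L r = 0 ∨ algebraMap K L r = 1 := by
      by_cases hr0 : algebraMap K L r = 0
      · exact Or.inl hr0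
      · right
        have h5 := mul_left_cancel₀ hr0 h4
        exact mul_right_cancel₀ hμ0 (by rw [h5, one_mul])
    rcases hr with h5 | h5
    · rw [h5, zero_mul] at h2
      exact absurd (pow_eq_zero_iff (Nat.card_pos).ne' |>.1 h2) hμ0
    · rw [h5, one_mul] at h2
      have hdvd : ∀ i : ℕ, μ ^ (Nat.card K ^ i) = μ := by
        intro i
        induction i with
        | zero => simp
        | succ i ih => rw [pow_succ, pow_mul, ih, h2]
      have hfin : Finite L := Module.finite_of_finite K
      have htr : ∀ z : L, algebraMap K L (Algebra.trace K L (μ * z)) =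
          μ * algebraMap K L (Algebra.trace K L z) := by
        intro z
        rw [algebraMap_trace_eq_sum_pow, algebraMap_trace_eq_sum_pow, Finset.mul_sum]
        apply Finset.sum_congr rfl
        intro i _
        rw [mul_pow, hdvd]
      obtain ⟨z, hz⟩ := Algebra.trace_surjective K L 1
      refine ⟨Algebra.trace K L (μ * z), ?_⟩
      rw [htr, hz, map_one, mul_one]

/-- (VRK) -/
theorem vrk (hlbm : LbmStmt) (hlra : LraStmt) (hvbm : VbmStmt) : VrkStmt := by
  intro K L _ _ _ _ _ _ q m lam hq hm hn hadj hnorm hlam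
  obtain ⟨b, hb, hbb, hker, hsc⟩ := lrk_formula hlbm K L m lam hm hn hadj hnorm
  obtain ⟨hinj, hprod, hne, hell⟩ := hlra K L m lam hm hn hadj hnorm
  have hB := hvbm (ZMod (2 * m + 1)) L m (cj K L (2 * m + 1) lam) (ZMod.card _) hinj hprod hne
  set c := cj K L (2 * m + 1) lam with hc
  have hfin : Finite L := Module.finite_of_finite K
  have hlam0 : lam ≠ 0 := by
    rintro rfl
    rw [Algebra.norm_zero] at hnorm
    exact zero_ne_one hnorm
  have hc0 : c 0 = lam := by
    rw [hc]
    unfold cj
    simp
  have hcne : ∀ i, c i ≠ 0 := fun i => pow_ne_zero _ hlam0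
  have hcardK : Nat.card K = q ^ 2 := hq.card
  -- the automorphism `τ`
  obtain ⟨τ, hτ⟩ : ∃ τ : L →+* L, ∀ x, τ x = x ^ (q ^ (2 * m + 1)) := by
    have := Fintype.ofFinite K
    obtain ⟨p, hp⟩ := CharP.exists K
    obtain ⟨k, hpp, hk⟩ := FiniteField.card K p
    have hpL : CharP L p := charP_of_injective_algebraMap (algebraMap K L).injective p
    have : Fact p.Prime := ⟨hpp⟩
    have h1 : q ^ 2 = p ^ (k : ℕ) := by rw [← hcardK, Nat.card_eq_fintype_card, hk]
    obtain ⟨j, _, hj⟩ := (Nat.dvd_prime_pow hpp).1 (show q ∣ p ^ (k : ℕ) from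
      h1 ▸ dvd_pow_self q two_ne_zero)
    refine ⟨iterateFrobenius L p (j * (2 * m + 1)), fun x => ?_⟩
    rw [iterateFrobenius_def, hj, ← pow_mul]
  have hττ : ∀ x : L, τ (τ x) = x := by
    intro x
    rw [hτ, hτ, ← pow_mul, ← pow_add]
    have h1 : 2 * m + 1 + (2 * m + 1) = 2 * (2 * m + 1) := by ring
    rw [h1, pow_mul, ← hcardK, ← hn]
    exact pow_card_finrank x
  have hτinj : Function.Injective τ := τ.injective
  have hτpow : ∀ (x : L) (i : ℕ), τ (x ^ i) = (τ x) ^ i := fun x i => map_pow τ x i
  have hstarK : ∀ a : K, τ (algebraMap K L a) = algebraMap K L (star a) := by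
    intro a
    rw [hτ, ← map_pow, hq.star]
    congr 1
    have h1 : q ^ (2 * m + 1) = (q ^ 2) ^ m * q := by ring
    have h2 : ∀ j : ℕ, a ^ ((q ^ 2) ^ j) = a := by
      intro j
      have := Fintype.ofFinite K
      rw [← hcardK, Nat.card_eq_fintype_card]
      exact FiniteField.pow_card_pow j a
    rw [h1, pow_mul, h2]
  have htrτ : ∀ x : L, star (Algebra.trace K L x) = Algebra.trace K L (τ x) := by
    intro x
    apply (algebraMap K L).injective
    rw [← hstarK, algebraMap_trace_eq_sum_pow, algebraMap_trace_eq_sum_pow, map_sum]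
    apply Finset.sum_congr rfl
    intro i _
    exact hτpow _ _
  have hτlam : τ lam = lam⁻¹ := by
    rw [hτ]
    rw [pow_succ] at hlam
    exact eq_inv_of_mul_eq_one_left hlam
  have hτc : ∀ i, τ (c i) = (c i)⁻¹ := by
    intro i
    rw [hc]
    unfold cj
    rw [hτpow, hτlam, inv_pow]
  have hτell : ∀ i, τ (ell m c i) = ell m c i := by
    intro i
    unfold ell
    rw [map_mul, map_add, map_add, map_inv₀, map_pow, map_neg, map_one, hτc, inv_inv, map_prod]
    have h1 : ∀ k ∈ Finset.univ.erase i, τ ((1 + c i * c k) / (c i - c k)) =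
        (-1) * ((1 + c i * c k) / (c i - c k)) := by
      intro k hk
      have hik : c i ≠ c k := by
        intro h
        exact (Finset.mem_erase.1 hk).1 (hinj h).symm
      have h2 : c i - c k ≠ 0 := sub_ne_zero.2 hik
      have h3 : (c i)⁻¹ - (c k)⁻¹ ≠ 0 := by
        rw [sub_ne_zero]
        exact fun h => hik (inv_injective h)
      rw [map_div₀, map_add, map_one, map_mul, map_sub, hτc, hτc]
      rw [div_eq_iff h3]
      have h4 := hcne i
      have h5 := hcne k
      field_simp
      ring
    rw [Finset.prod_congr rfl h1, Finset.prod_mul_distrib, Finset.prod_const,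
      Finset.card_erase_of_mem (Finset.mem_univ _), Finset.card_univ, ZMod.card]
    have h2 : ((-1 : L)) ^ (2 * m + 1 - 1) = 1 := by
      rw [Nat.add_sub_cancel, pow_mul]
      simp
    rw [h2]
    ring
  have hτB : ∀ i k, ell m c i * τ (bmat m c i k) = ell m c k * (c k * (bmat m c k i * c i)) := by
    intro i k
    unfold bmat
    rw [map_div₀, map_sub, map_add, map_one, map_mul, hτc, hτc, hτell]
    have h1 := hcne i
    have h2 := hcne k
    have h3 := hne i k
    have h4 := hne k i
    have h5 : (1 : L) + (c i)⁻¹ * (c k)⁻¹ ≠ 0 := by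
      have : (1 : L) + (c i)⁻¹ * (c k)⁻¹ = (1 + c i * c k) / (c i * c k) := by
        field_simp
        ring
      rw [this]
      exact div_ne_zero h3 (mul_ne_zero h1 h2)
    by_cases hik : i = k
    · subst hik
      simp only [if_true, map_one]
      have h6 : 1 + (c i) ^ 2 ≠ 0 := by rw [pow_two]; exact h3
      rw [mul_div_assoc', div_eq_iff h5]
      field_simp
      ring
    · rw [if_neg hik, if_neg (Ne.symm hik), map_zero, mul_div_assoc', div_eq_iff h5]
      field_simp
      ring
  -- the form
  set h : L → L → K := fun x y => Algebra.trace K L (ell m c 0 * τ x * y) with hh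
  have hcoord : ∀ x y : L, algebraMap K L (h x y) = ∑ i : ZMod (2 * m + 1),
      ell m c i * τ (x ^ (Nat.card K ^ i.val)) * y ^ (Nat.card K ^ i.val) := by
    intro x y
    simp only [hh]
    rw [algebraMap_trace_eq_sum_pow, hn, sum_zmod]
    apply Finset.sum_congr rfl
    intro i _
    have h1 := ell_frob (2 * m + 1) m hn lam i 0
    rw [add_zero] at h1
    rw [mul_pow, mul_pow, hτpow]
    rw [← hc] at h1
    rw [h1]
  have hφ : ∀ x, b (lam * b (lam * x)) = x := by
    intro x
    have h1 : ∀ j : ZMod (2 * m + 1), (lam * b (lam * x)) ^ (Nat.card K ^ j.val) =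
        ∑ l, c j * bmat m c j l * c l * x ^ (Nat.card K ^ l.val) := by
      intro j
      rw [mul_pow, op_coord m lam hn b hb, Finset.mul_sum]
      apply Finset.sum_congr rfl
      intro l _
      rw [mul_pow]
      have h2 : lam ^ (Nat.card K ^ j.val) = c j := rfl
      have h3 : lam ^ (Nat.card K ^ l.val) = c l := rfl
      rw [h2, h3]
      ring
    rw [hb]
    simp_rw [h1, Finset.mul_sum]
    rw [Finset.sum_comm]
    have h2 : ∀ l : ZMod (2 * m + 1), ∑ j, bmat m c 0 j *
        (c j * bmat m c j l * c l * x ^ (Nat.card K ^ l.val)) =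
        (if (0 : ZMod (2 * m + 1)) = l then 1 else 0) * x ^ (Nat.card K ^ l.val) := by
      intro l
      have h3 := congrFun (congrFun hB 0) l
      rw [Matrix.mul_apply] at h3
      simp_rw [Matrix.mul_diagonal, Matrix.diagonal_mul] at h3
      rw [Matrix.one_apply] at h3
      rw [← h3, Finset.sum_mul]
      apply Finset.sum_congr rfl
      intro j _
      ring
    rw [Finset.sum_congr rfl (fun l _ => h2 l)]
    simp
  have hφ' : ∀ y, lam * b (lam * b y) = y := by
    intro y
    have h1 := hφ (b y)
    have h2 : b (lam * b (lam * b y) - y) = 0 := by rw [map_sub, h1, sub_self]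
    exact sub_eq_zero.1 (hker _ h2)
  have hadjt : ∀ x y, h (b x) y = h x (lam * b (lam * y)) := by
    intro x y
    apply (algebraMap K L).injective
    rw [hcoord, hcoord]
    have h1 : ∀ i : ZMod (2 * m + 1), ell m c i * τ ((b x) ^ (Nat.card K ^ i.val)) *
        y ^ (Nat.card K ^ i.val) = ∑ k, ell m c k * (c k * (bmat m c k i * c i)) *
          τ (x ^ (Nat.card K ^ k.val)) * y ^ (Nat.card K ^ i.val) := by
      intro i
      rw [op_coord m lam hn b hb, map_sum, Finset.mul_sum, Finset.sum_mul]
      apply Finset.sum_congr rfl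
      intro k _
      rw [map_mul, ← hc, ← hτB i k]
      ring
    have h2 : ∀ k : ZMod (2 * m + 1), ell m c k * τ (x ^ (Nat.card K ^ k.val)) *
        (lam * b (lam * y)) ^ (Nat.card K ^ k.val) = ∑ i, ell m c k *
          (c k * (bmat m c k i * c i)) *
          τ (x ^ (Nat.card K ^ k.val)) * y ^ (Nat.card K ^ i.val) := by
      intro k
      rw [mul_pow, op_coord m lam hn b hb, Finset.mul_sum, Finset.mul_sum]
      apply Finset.sum_congr rfl
      intro i _
      rw [mul_pow]
      have h2 : lam ^ (Nat.card K ^ k.val) = c k := rfl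
      have h3 : lam ^ (Nat.card K ^ i.val) = c i := rfl
      rw [h2, h3, ← hc]
      ring
    rw [Finset.sum_congr rfl (fun i _ => h1 i), Finset.sum_congr rfl (fun k _ => h2 k),
      Finset.sum_comm]
  refine ⟨b, h, ⟨?_, ?_, ?_, ?_⟩, hbb, hker, hsc, ?_, ?_⟩
  · intro u v w
    simp only [hh]
    rw [mul_add, map_add]
  · intro a u v
    simp only [hh]
    rw [mul_smul_comm, map_smul, smul_eq_mul]
  · intro u v
    simp only [hh]
    rw [htrτ, map_mul τ, map_mul τ, hττ, hτell]
    congr 1
    ring
  · intro u hu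
    have : Algebra.IsSeparable K L := inferInstance
    have hnd := traceForm_nondegenerate K L
    have h1 : ell m c 0 * τ u = 0 := by
      apply hnd.1
      intro v
      rw [Algebra.traceForm_apply]
      exact hu v
    have h2 : τ u = 0 := (mul_eq_zero.1 h1).resolve_left (hell 0)
    exact (map_eq_zero τ).1 h2
  · intro x y
    simp only [hh]
    congr 1
    rw [map_mul, hτlam]
    field_simp
  · intro x y
    rw [hadjt, hφ']

end Pool.Agent.Eng.H33
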