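import Pool.Agent.Helper13_Eng2.Stmts
import Pool.Agent.Helper71_Eng.T8

/-!
# Squad ENG, part 2: module X8
-/

set_option autoImplicit false

namespace Pool.Agent.Eng.H33

open Finset

section
variable {K : Type} [Field K]

/-- powers of `om` -/
def wz (om : K) (x : ZMod 3) : K := om ^ x.val

theorem om_cube {om : K} (h : om ^ 2 + om + 1 = 0) : om ^ 3 = 1 := by
  linear_combination (om - 1) * h

theorem wz_zero (om : K) : wz om 0 = 1 := by
  unfold wz
  rw [ZMod.val_zero, pow_zero]

theorem wz_add {om : K} (h3 : om ^ 3 = 1) (x y : ZMod 3) : wz om (x + y) = wz om x * wz om y := by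
  unfold wz
  rw [ZMod.val_add, ← pow_add]
  conv_rhs => rw [← Nat.mod_add_div (x.val + y.val) 3, pow_add, pow_mul, h3, one_pow, mul_one]

theorem wz_ne {om : K} (h3 : om ^ 3 = 1) (x : ZMod 3) : wz om x ≠ 0 := by
  intro h
  have h1 := wz_add h3 x (-x)
  rw [h, zero_mul, add_neg_cancel, wz_zero] at h1
  exact one_ne_zero h1

theorem sum_wz {om : K} (h2 : (2 : K) = 0) (h : om ^ 2 + om + 1 = 0) (x : ZMod 3) :
    ∑ k : ZMod 3, wz om (k * x) = if x = 0 then 1 else 0 := by
  have hs : ∀ f : ZMod 3 → K, ∑ k : ZMod 3, f k = f 0 + f 1 + f 2 := fun f =>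
    Fin.sum_univ_three f
  rw [hs]
  have hv : ∀ a : ZMod 3, ∀ n : ℕ, a.val = n → wz om a = om ^ n := by
    intro a n hn
    unfold wz
    rw [hn]
  have hcases : ∀ x : ZMod 3, x = 0 ∨ x = 1 ∨ x = 2 := by decide
  rcases hcases x with rfl | rfl | rfl
  · rw [hv (0 * 0) 0 (by decide), hv (1 * 0) 0 (by decide), hv (2 * 0) 0 (by decide), if_pos rfl]
    linear_combination h2
  · rw [hv (0 * 1) 0 (by decide), hv (1 * 1) 1 (by decide), hv (2 * 1) 2 (by decide),
      if_neg (by decide)]
    linear_combination h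
  · rw [hv (0 * 2) 0 (by decide), hv (1 * 2) 2 (by decide), hv (2 * 2) 1 (by decide),
      if_neg (by decide)]
    linear_combination h

/-- the matrices `D^a P^b` -/
def Em (om : K) (m : ZMod 3 × ZMod 3) : Matrix (ZMod 3) (ZMod 3) K :=
  fun i j => if j = i + m.2 then wz om (m.1 * i) else 0

/-- the Fourier matrix -/
def Fm (om : K) : Matrix (ZMod 3) (ZMod 3) K := fun i j => wz om (i * j)

/-- its inverse -/
def Gm (om : K) : Matrix (ZMod 3) (ZMod 3) K := fun i j => wz om (-(i * j))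

theorem Em_mul {om : K} (h3 : om ^ 3 = 1) (m m' : ZMod 3 × ZMod 3) :
    Em om m * Em om m' = wz om (m'.1 * m.2) • Em om (m + m') := by
  ext i j
  rw [Matrix.mul_apply, Matrix.smul_apply]
  unfold Em
  rw [Finset.sum_eq_single (i + m.2)]
  · rw [if_pos rfl, Prod.snd_add, Prod.fst_add, add_assoc, smul_eq_mul]
    by_cases hj : j = i + (m.2 + m'.2)
    · rw [if_pos hj, if_pos hj, ← wz_add h3, ← wz_add h3]
      congr 1
      ring
    · rw [if_neg hj, if_neg hj, mul_zero, mul_zero]
  · intro k _ hk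
    rw [if_neg hk, zero_mul]
  · intro h
    exact absurd (Finset.mem_univ _) h

theorem Em_zero (om : K) : Em om 0 = 1 := by
  ext i j
  unfold Em
  rw [Matrix.one_apply]
  simp only [Prod.snd_zero, add_zero, Prod.fst_zero, zero_mul, wz_zero]
  by_cases hij : i = j
  · rw [if_pos hij.symm, if_pos hij]
  · rw [if_neg (fun h => hij h.symm), if_neg hij]

theorem Fm_mul_Gm {om : K} (h2 : (2 : K) = 0) (h : om ^ 2 + om + 1 = 0) :
    Fm om * Gm om = 1 := by
  ext i j
  rw [Matrix.mul_apply, Matrix.one_apply]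
  unfold Fm Gm
  have h3 := om_cube h
  have h1 : ∀ k : ZMod 3, wz om (i * k) * wz om (-(k * j)) = wz om (k * (i - j)) := by
    intro k
    rw [← wz_add h3]
    congr 1
    ring
  rw [Finset.sum_congr rfl (fun k _ => h1 k), sum_wz h2 h]
  simp only [sub_eq_zero]

theorem Gm_mul_Fm {om : K} (h2 : (2 : K) = 0) (h : om ^ 2 + om + 1 = 0) :
    Gm om * Fm om = 1 := by
  ext i j
  rw [Matrix.mul_apply, Matrix.one_apply]
  unfold Fm Gm
  have h3 := om_cube h
  have h1 : ∀ k : ZMod 3, wz om (-(i * k)) * wz om (k * j) = wz om (k * (j - i)) := by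
    intro k
    rw [← wz_add h3]
    congr 1
    ring
  rw [Finset.sum_congr rfl (fun k _ => h1 k), sum_wz h2 h]
  simp only [sub_eq_zero]
  by_cases hij : i = j
  · rw [if_pos hij.symm, if_pos hij]
  · rw [if_neg (fun h => hij h.symm), if_neg hij]

theorem conj_Em {om : K} (h2 : (2 : K) = 0) (h : om ^ 2 + om + 1 = 0) (m : ZMod 3 × ZMod 3) :
    Gm om * Em om m * Fm om = wz om (-(m.1 * m.2)) • Em om (m.2, -m.1) := by
  have h3 := om_cube h
  ext i j
  rw [Matrix.mul_apply, Matrix.smul_apply]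
  have h1 : ∀ l : ZMod 3, (Gm om * Em om m) i l = wz om (-(i * (l - m.2))) *
      wz om (m.1 * (l - m.2)) := by
    intro l
    rw [Matrix.mul_apply]
    unfold Gm Em
    rw [Finset.sum_eq_single (l - m.2)]
    · rw [sub_add_cancel, if_pos rfl]
    · intro k _ hk
      rw [if_neg, mul_zero]
      intro hl
      exact hk (by rw [hl, add_sub_cancel_right])
    · intro h
      exact absurd (Finset.mem_univ _) h
  have h4 : ∀ l : ZMod 3, (Gm om * Em om m) i l * Fm om l j =
      wz om (m.2 * (i - m.1)) * wz om (l * (m.1 + j - i)) := by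
    intro l
    rw [h1]
    unfold Fm
    rw [← wz_add h3, ← wz_add h3, ← wz_add h3]
    congr 1
    ring
  rw [Finset.sum_congr rfl (fun l _ => h4 l), ← Finset.mul_sum, sum_wz h2 h]
  unfold Em
  rw [smul_eq_mul]
  by_cases hj : j = i + -m.1
  · rw [if_pos (by rw [hj]; ring), if_pos hj, mul_one, ← wz_add h3]
    congr 1
    ring
  · rw [if_neg (fun h => hj (by linear_combination h)), if_neg hj, mul_zero, mul_zero]

theorem om_ne_one {om : K} (h2 : (2 : K) = 0) (h : om ^ 2 + om + 1 = 0) : om ≠ 1 := by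
  intro h1
  rw [h1] at h
  have : (1 : K) = 0 := by linear_combination h - h2
  exact one_ne_zero this

theorem wz_inj {om : K} (h2 : (2 : K) = 0) (h : om ^ 2 + om + 1 = 0) {x : ZMod 3}
    (hx : wz om x = 1) : x = 0 := by
  by_contra hne
  have h3 := om_cube h
  have h1 := sum_wz h2 h x
  rw [if_neg hne] at h1
  have h4 : ∀ k : ZMod 3, wz om (k * x) = 1 := by
    have hcases : ∀ k : ZMod 3, k = 0 ∨ k = 1 ∨ k = 1 + 1 := by decide
    intro k
    rcases hcases k with rfl | rfl | rfl
    · rw [zero_mul, wz_zero]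
    · rw [one_mul, hx]
    · rw [add_mul, one_mul, wz_add h3, hx, one_mul]
  rw [Finset.sum_congr rfl (fun k _ => h4 k), Finset.sum_const, Finset.card_univ, ZMod.card] at h1
  have : (1 : K) = 0 := by
    have h5 : (3 : K) = 0 := by simpa using h1
    linear_combination h5 - h2
  exact one_ne_zero this

theorem Em_inj {om : K} (h2 : (2 : K) = 0) (h : om ^ 2 + om + 1 = 0) {c c' : K} (hc : c ≠ 0)
    {m m' : ZMod 3 × ZMod 3} (he : c • Em om m = c' • Em om m') : m = m' := by
  have h3 := om_cube h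
  have h1 := congrFun (congrFun he 0) m.2
  rw [Matrix.smul_apply, Matrix.smul_apply, smul_eq_mul, smul_eq_mul] at h1
  unfold Em at h1
  rw [if_pos (by rw [zero_add]), mul_zero, wz_zero, mul_one] at h1
  have hb : m.2 = m'.2 := by
    by_contra hne
    rw [if_neg (by rw [zero_add]; exact hne), mul_zero] at h1
    exact hc h1
  rw [if_pos (by rw [zero_add, hb]), mul_zero, wz_zero, mul_one] at h1
  have h4 := congrFun (congrFun he 1) (1 + m.2)
  rw [Matrix.smul_apply, Matrix.smul_apply, smul_eq_mul, smul_eq_mul, ← h1] at h4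
  unfold Em at h4
  rw [if_pos rfl, if_pos (by rw [hb]), mul_one, mul_one] at h4
  have h5 := mul_left_cancel₀ hc h4
  have h6 : wz om (m.1 - m'.1) = 1 := by
    have h7 := wz_add h3 (m.1 - m'.1) m'.1
    rw [sub_add_cancel, h5] at h7
    exact (mul_eq_right₀ (wz_ne h3 _)).1 h7.symm
  have h7 := wz_inj h2 h h6
  exact Prod.ext (sub_eq_zero.1 h7) hb

theorem det3 (A : Matrix (ZMod 3) (ZMod 3) K) : A.det = A 0 0 * A 1 1 * A 2 2 -
    A 0 0 * A 1 2 * A 2 1 - A 0 1 * A 1 0 * A 2 2 + A 0 1 * A 1 2 * A 2 0 +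
    A 0 2 * A 1 0 * A 2 1 - A 0 2 * A 1 1 * A 2 0 :=
  Matrix.det_fin_three (A : Matrix (Fin 3) (Fin 3) K)

theorem det_Em {om : K} (h : om ^ 2 + om + 1 = 0) (m : ZMod 3 × ZMod 3) :
    (Em om m).det = 1 := by
  have h3 := om_cube h
  have hsplit : Em om m = Em om (m.1, 0) * Em om (0, m.2) := by
    rw [Em_mul h3, zero_mul, wz_zero, one_smul]
    congr 1
    exact Prod.ext (by simp) (by simp)
  have hdiag : (Em om (m.1, 0)).det = 1 := by
    have h1 : Em om (m.1, 0) = Matrix.diagonal (fun i => wz om (m.1 * i)) := by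
      ext i j
      unfold Em
      rw [Matrix.diagonal_apply, add_zero]
      by_cases hij : i = j
      · rw [if_pos hij.symm, if_pos hij]
      · rw [if_neg (fun h => hij h.symm), if_neg hij]
    rw [h1, Matrix.det_diagonal]
    have hs : ∀ f : ZMod 3 → K, ∏ k : ZMod 3, f k = f 0 * f 1 * f 2 := fun f =>
      Fin.prod_univ_three f
    rw [hs, ← wz_add h3, ← wz_add h3]
    have h2 : m.1 * 0 + m.1 * 1 + m.1 * 2 = 0 := by
      have : ∀ x : ZMod 3, x * 0 + x * 1 + x * 2 = 0 := by decide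
      exact this _
    rw [h2, wz_zero]
  have hone : (Em om (0, 1)).det = 1 := by
    rw [det3]
    have h2 : ∀ i j : ZMod 3, Em om (0, 1) i j = if j = i + 1 then 1 else 0 := by
      intro i j
      unfold Em
      simp only [zero_mul, wz_zero]
    rw [h2, h2, h2, h2, h2, h2, h2, h2, h2]
    rw [if_neg (by decide), if_neg (by decide), if_neg (by decide), if_pos (by decide),
      if_neg (by decide), if_pos (by decide), if_neg (by decide), if_pos (by decide),
      if_neg (by decide)]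
    ring
  rw [hsplit, Matrix.det_mul, hdiag, one_mul]
  have hcases : ∀ x : ZMod 3, x = 0 ∨ x = 1 ∨ x = 1 + 1 := by decide
  rcases hcases m.2 with h4 | h4 | h4
  · rw [h4]
    have : ((0 : ZMod 3), (0 : ZMod 3)) = 0 := rfl
    rw [this, Em_zero, Matrix.det_one]
  · rw [h4, hone]
  · rw [h4]
    have h5 : Em om (0, 1 + 1) = Em om (0, 1) * Em om (0, 1) := by
      rw [Em_mul h3, zero_mul, wz_zero, one_smul]
      rfl
    rw [h5, Matrix.det_mul, hone, one_mul]

theorem det_Fm {om : K} (h2 : (2 : K) = 0) (h : om ^ 2 + om + 1 = 0) : (Fm om).det = 1 := by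
  rw [det3]
  have hv : ∀ (i j : ZMod 3) (n : ℕ), (i * j).val = n → Fm om i j = om ^ n := by
    intro i j n hn
    unfold Fm wz
    rw [hn]
  rw [hv 0 0 0 (by decide), hv 0 1 0 (by decide), hv 0 2 0 (by decide), hv 1 0 0 (by decide),
    hv 1 1 1 (by decide), hv 1 2 2 (by decide), hv 2 0 0 (by decide), hv 2 1 2 (by decide),
    hv 2 2 1 (by decide)]
  linear_combination (-om ^ 2 + om + 3) * h + (-3 * om - 2) * h2

end

section
variable {K : Type} [Field K] [StarRing K]

theorem star_wz {om : K} (h3 : om ^ 3 = 1) (hs : star om = om ^ 2) (x : ZMod 3) :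
    star (wz om x) = wz om (-x) := by
  have hcases : ∀ x : ZMod 3, x = 0 ∨ x = 1 ∨ x = 2 := by decide
  have hv : ∀ a : ZMod 3, ∀ n : ℕ, a.val = n → wz om a = om ^ n := by
    intro a n hn
    unfold wz
    rw [hn]
  rcases hcases x with rfl | rfl | rfl
  · rw [hv 0 0 (by decide), hv (-0) 0 (by decide), pow_zero, star_one]
  · rw [hv 1 1 (by decide), hv (-1) 2 (by decide), pow_one, hs]
  · rw [hv 2 2 (by decide), hv (-2) 1 (by decide), star_pow, hs, pow_one, ← pow_mul]
    calc om ^ (2 * 2) = om ^ 3 * om := by ring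
      _ = om := by rw [h3, one_mul]

theorem Em_mem {om : K} (h : om ^ 2 + om + 1 = 0) (hs : star om = om ^ 2)
    (m : ZMod 3 × ZMod 3) :
    (Em om m : Matrix (Fin 3) (Fin 3) K) ∈ Matrix.specialUnitaryGroup (Fin 3) K := by
  have h3 := om_cube h
  have h1 : Em om m * star (Em om m) = 1 := by
    ext i j
    rw [Matrix.mul_apply, Matrix.one_apply]
    simp only [Matrix.star_apply]
    unfold Em
    rw [Finset.sum_eq_single (i + m.2)]
    · rw [if_pos rfl]
      by_cases hij : i = j
      · subst hij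
        rw [if_pos rfl, if_pos rfl, star_wz h3 hs, ← wz_add h3, add_neg_cancel, wz_zero]
      · rw [if_neg (fun h => hij (add_right_cancel h)), if_neg hij, star_zero, mul_zero]
    · intro k _ hk
      rw [if_neg hk, zero_mul]
    · intro h
      exact absurd (Finset.mem_univ _) h
  exact Matrix.mem_specialUnitaryGroup_iff.2 ⟨Matrix.mem_unitaryGroup_iff.2 h1, det_Em h m⟩

theorem Fm_mem {om : K} (h2 : (2 : K) = 0) (h : om ^ 2 + om + 1 = 0) (hs : star om = om ^ 2) :
    (Fm om : Matrix (Fin 3) (Fin 3) K) ∈ Matrix.specialUnitaryGroup (Fin 3) K := by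
  have h3 := om_cube h
  have h1 : star (Fm om) = Gm om := by
    ext i j
    rw [Matrix.star_apply]
    unfold Fm Gm
    rw [star_wz h3 hs, mul_comm]
  have h4 : Fm om * star (Fm om) = 1 := by rw [h1, Fm_mul_Gm h2 h]
  exact Matrix.mem_specialUnitaryGroup_iff.2 ⟨Matrix.mem_unitaryGroup_iff.2 h4, det_Fm h2 h⟩

/-- the matrix of an element, over the index type `ZMod 3` -/
def vm (g : SU 3 K) : Matrix (ZMod 3) (ZMod 3) K := (g : Matrix (Fin 3) (Fin 3) K)

theorem vm_mul (g g' : SU 3 K) : vm (g * g') = vm g * vm g' := rfl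

theorem vm_one : vm (1 : SU 3 K) = 1 := rfl

/-- the section -/
def S8 (om : K) : Set (SU 3 K) := {g | ∃ (c : K) (m : ZMod 3 × ZMod 3), vm g = c • Em om m}

open Classical in
/-- the projection -/
noncomputable def p8 (om : K) (g : SU 3 K) : ZMod 3 × ZMod 3 :=
  if h : ∃ m : ZMod 3 × ZMod 3, ∃ c : K, vm g = c • Em om m then h.choose else 0

theorem sc_ne {om c : K} {g : SU 3 K} {m : ZMod 3 × ZMod 3} (hg : vm g = c • Em om m) : c ≠ 0 := by
  rintro rfl
  rw [zero_smul] at hg
  have h1 : vm (g * g⁻¹) = 0 := by rw [vm_mul, hg, zero_mul]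
  rw [mul_inv_cancel, vm_one] at h1
  exact one_ne_zero h1

theorem p8_eq {om c : K} (h2 : (2 : K) = 0) (h : om ^ 2 + om + 1 = 0) {g : SU 3 K}
    {m : ZMod 3 × ZMod 3} (hg : vm g = c • Em om m) : p8 om g = m := by
  have hex : ∃ m : ZMod 3 × ZMod 3, ∃ c : K, vm g = c • Em om m := ⟨m, c, hg⟩
  unfold p8
  rw [dif_pos hex]
  obtain ⟨c', hc'⟩ := hex.choose_spec
  exact Em_inj h2 h (sc_ne hc') (hc'.symm.trans hg)

/-- (X8) -/
theorem x8 (hab : HabStmt) (hcen : HcenStmt) : X8Stmt := by
  intro K _ _ _ om h2 h hs d _ hlaw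
  have h3 := om_cube h
  have hom1 := om_ne_one h2 h
  have hom0 : om ≠ 0 := by
    rintro rfl
    simp at h3
  have hinv : ∃ x : K, star x ≠ x := by
    refine ⟨om, ?_⟩
    rw [hs]
    intro h4
    apply hom1
    have : om * (om - 1) = 0 := by linear_combination h4
    rcases mul_eq_zero.1 this with h5 | h5
    · exact absurd h5 hom0
    · exact sub_eq_zero.1 h5
  set y : SU 3 K := ⟨Fm om, Fm_mem h2 h hs⟩ with hy
  have hvy : vm y = Fm om := rfl
  have hvyi : vm y⁻¹ = Gm om := by
    have h4 : vm (y * y⁻¹) = 1 := by rw [mul_inv_cancel, vm_one]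
    rw [vm_mul, hvy] at h4
    calc vm y⁻¹ = (Gm om * Fm om) * vm y⁻¹ := by rw [Gm_mul_Fm h2 h, one_mul]
      _ = Gm om := by rw [mul_assoc, h4, mul_one]
  obtain ⟨r, hr⟩ := hab (SU 3 K) (Subgroup.center (SU 3 K)) (ZMod 3 × ZMod 3) (p8 om) (S8 om) y
    H71.sEnd (by
      rintro x ⟨c, m, hx⟩
      have h4 : vm (eng y x) = (c⁻¹ * wz om (m.1 * m.2) * (c * wz om (-(m.1 * m.2))) *
          wz om (m.2 * -m.2)) • Em om (-m + (m.2, -m.1)) := by
        have h5 : vm x * vm (eng y x) = (c * wz om (-(m.1 * m.2))) • Em om (m.2, -m.1) := by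
          rw [← vm_mul]
          have h6 : x * eng y x = y⁻¹ * x * y := by
            unfold eng
            group
          rw [h6, vm_mul, vm_mul, hvyi, hvy, hx, Matrix.mul_smul, Matrix.smul_mul,
            conj_Em h2 h, smul_smul]
        have h7 : Em om (-m) * Em om m = wz om (-(m.1 * m.2)) • (1 : Matrix (ZMod 3) (ZMod 3) K) := by
          rw [Em_mul h3, neg_add_cancel, Em_zero]
          congr 2
          rw [Prod.snd_neg]
          ring
        have h8 : (c⁻¹ * wz om (m.1 * m.2)) • (Em om (-m) * vm x) =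
            (1 : Matrix (ZMod 3) (ZMod 3) K) := by
          rw [hx, Matrix.mul_smul, h7, smul_smul, smul_smul]
          have h9 : c⁻¹ * wz om (m.1 * m.2) * c * wz om (-(m.1 * m.2)) = 1 := by
            have h10 := wz_add h3 (m.1 * m.2) (-(m.1 * m.2))
            rw [add_neg_cancel, wz_zero] at h10
            have h11 := sc_ne hx
            field_simp
            exact h10.symm
          rw [h9, one_smul]
        calc vm (eng y x) = ((c⁻¹ * wz om (m.1 * m.2)) • (Em om (-m) * vm x)) * vm (eng y x) := by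
              rw [h8, one_mul]
          _ = _ := by
              rw [Matrix.smul_mul, mul_assoc, h5, Matrix.mul_smul, Em_mul h3, smul_smul, smul_smul]
              congr 1
      refine ⟨⟨_, _, h4⟩, ?_⟩
      rw [p8_eq h2 h h4, p8_eq h2 h hx]
      change -m + (m.2, -m.1) = (m.2, -m.1) - m
      rw [sub_eq_neg_add]) (by
      rintro x z ⟨c, m, hx⟩ hz _
      obtain ⟨c', hc'⟩ := (hcen K 3 z hinv).1 hz
      have h4 : vm z = c' • (1 : Matrix (ZMod 3) (ZMod 3) K) := hc'
      have h5 : vm (x * z) = (c' * c) • Em om m := by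
        rw [vm_mul, h4, Matrix.mul_smul, mul_one, hx, smul_smul]
      rw [p8_eq h2 h h5, p8_eq h2 h hx]) (by
      intro m
      have h4 : vm (⟨Em om m, Em_mem h hs m⟩ : SU 3 K) = (1 : K) • Em om m := by
        rw [one_smul]
        rfl
      exact ⟨⟨Em om m, Em_mem h hs m⟩, ⟨1, m, h4⟩, p8_eq h2 h h4⟩) d hlaw
  exact H71.eight_dvd r d hr

end

end Pool.Agent.Eng.H33
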